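import Pool.Agent.PX.Stmts

set_option autoImplicit false

/-! Row FIX: filtrations exist (edit of helper14's FIL). -/

namespace Pool.Agent.PX.H6

open MvPolynomial
open Pool.Agent.RS (FF io)
open Pool.Agent.PW (dd JUN RR FG Robust VV Piv del eul Ph Zer Free)

theorem fix (hl : LoxStmt) (hp : PnxStmt) : FixStmt := by
  intro c0 ρ k r s
  obtain ⟨A, hA⟩ : ∃ A, A = (r + ρ * s + ρ + 1) * ((s + c0) * (s + c0)) := ⟨_, rfl⟩
  obtain ⟨k', hk'⟩ : ∃ k', k' = k + r + A := ⟨_, rfl⟩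
  obtain ⟨B, hB⟩ : ∃ B, B = (r + ρ * s + k' + ρ) * (s * s) := ⟨_, rfl⟩
  refine ⟨B + k', (r + ρ * s + k' + ρ + 1) * (s + c0), ?_⟩
  intro E D _ _ _ _ _ Γ y ζ J1 hS hy hG hJ hR hF
  have e1 : (J1.card + ρ * s + ρ + 1) * ((s + c0) * (s + c0)) ≤ k' := by
    have h : (J1.card + ρ * s + ρ + 1) * ((s + c0) * (s + c0)) ≤ A := by
      rw [hA]
      exact Nat.mul_le_mul_right _ (by omega)
    omega
  have e2 : (J1.card + ρ * s + k' + ρ) * (s * s) ≤ B + k' := by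
    have h : (J1.card + ρ * s + k' + ρ) * (s * s) ≤ B := by
      rw [hB]
      exact Nat.mul_le_mul_right _ (by omega)
    omega
  have e3 : (J1.card + ρ * s + k' + ρ + 1) * (s + c0) ≤
      (r + ρ * s + k' + ρ + 1) * (s + c0) := Nat.mul_le_mul_right _ (by omega)
  obtain ⟨J, Om, _, _, e, hJ1, hJc, h1, h2, h3⟩ := hp E D ζ _ ρ (B + k') k' c0 s Γ y J1
    hS hF hy hG hR e1 e2 (by omega) e3
  obtain ⟨Fi, hFi, hZ⟩ := hl E D ρ c0 k y ζ J1 J Om e.toRingHom hJ1 h1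
    (fun h h0 hv => h2 h h0 ((Finset.card_le_card hv).trans (by omega)))
    (fun h h0 hv => h2 h h0 (hv.trans (by omega))) h3
  exact ⟨J, hJ1, by omega, Fi, hFi, hZ⟩

end Pool.Agent.PX.H6
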